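import Pool.Agent.Results.MP_dc323a_nt.WindowsWithoutExceptions
import Pool.Agent.X149.MetricBalls
import Pool.Agent.X283.DA.Pack

/-!
# The Gaussian abc inequality for the denominators of good approximations

Let `D ≥ 1`, `y ∈ ℂ ^ D`, `λ > 0`, `θ ≥ 0` and `s = min (4 λ / 7) (6 / 11) + max (λ - 1) 0`, `s < D θ`. For almost every
`z ∈ ℂ ^ D` and all `A`, `B`, all but finitely many Gaussian integers `q` such that `q z_i` is within `A |q| ^ (-θ)` of
`y_i` modulo `ℤ[i]` for all `i` have the following property: for ALL coprime `a + b = q`, `a, b ≠ 0`,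
`|a|, |b| ≤ |q|`, one has `rad (a b q) > B |q| ^ λ`. The exceptional set of the `z` has Hausdorff dimension
at most `(2 s + 2 D) / (1 + θ)`, for all `θ ≥ 0`.

The same for ALL coprime triples `a + b = c` of nonzero Gaussian integers whose height `H = max (|a|, |b|, |c|)` satisfies
`H ^ 2 = n`, where `n` is a large natural number such that `n x_i` is within `n ^ (-θ_i)` of `y_i` modulo `1` for all `i`,
`θ_1 + ... + θ_d > s`, for almost all `x ∈ ℝ ^ d`; for `d = 1` the exceptional `x` form a set of Hausdorff dimension at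
most `(1 + s) / (1 + θ)` (this part by helper67).
-/

set_option autoImplicit false

open MeasureTheory Set
open scoped ENNReal NNReal

namespace Pool.Agent.Results.MP_dc323a_nt.Denominators

open Pool.Agent.X149.MetricBalls (Near near_null near_dim Sparse)
open WindowsWithoutExceptions (expo All height IsPrimeSystem)

/-- the absolute value of a Gaussian integer -/
noncomputable def nm (q : GaussianInt) : ℝ := ‖GaussianInt.toComplex q‖

/-- all coprime triples `a + b = q` with `a, b ≠ 0` and `|a|, |b| ≤ |q|` satisfy `rad (a b q) > B |q| ^ lam` -/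
def Good (B lam : ℝ) (q : GaussianInt) : Prop :=
  ∀ a b : GaussianInt, a ≠ 0 → b ≠ 0 → a + b = q → IsCoprime a b → nm a ≤ nm q → nm b ≤ nm q →
    ∀ S : Finset GaussianInt, IsPrimeSystem S (a * b * q) → B * nm q ^ lam < ∏ Q ∈ S, nm Q

/-- `q z_i` is within `A |q| ^ (-θ)` of `y_i` modulo `ℤ[i]`, for all `i` -/
def Approx {D : ℕ} (A θ : ℝ) (y z : Fin D → ℂ) (q : GaussianInt) : Prop :=
  ∀ j, ∃ p : GaussianInt, ‖GaussianInt.toComplex q * z j - GaussianInt.toComplex p - y j‖ ≤ A * nm q ^ (-θ)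

lemma one_le_nm {q : GaussianInt} (hq : q ≠ 0) : 1 ≤ nm q := by
  have h1 : 0 < Zsqrtd.norm q := GaussianInt.norm_pos.2 hq
  have h2 : (1 : ℝ) ≤ (Zsqrtd.norm q : ℝ) := by exact_mod_cast h1
  rw [GaussianInt.intCast_real_norm, ← Complex.sq_norm] at h2
  unfold nm
  nlinarith [norm_nonneg (GaussianInt.toComplex q)]

instance : Countable GaussianInt :=
  Function.Injective.countable (f := fun z : GaussianInt => (z.re, z.im)) fun z w h => by
    rw [Prod.mk.injEq] at h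
    exact Zsqrtd.ext h.1 h.2

lemma nm_nonneg (q : GaussianInt) : 0 ≤ nm q := norm_nonneg _

/-- the Gaussian integers in a disc -/
lemma box (Y : ℝ) (hY : 1 ≤ Y) : ∃ F : Finset GaussianInt, (∀ p : GaussianInt, nm p ≤ Y → p ∈ F) ∧
    (F.card : ℝ) ≤ 9 * Y ^ 2 := by
  classical
  refine ⟨((Finset.Icc (-⌊Y⌋) ⌊Y⌋) ×ˢ (Finset.Icc (-⌊Y⌋) ⌊Y⌋)).image (fun u => (⟨u.1, u.2⟩ : GaussianInt)), ?_, ?_⟩
  · intro p hp
    rw [Finset.mem_image]
    refine ⟨(p.re, p.im), ?_, rfl⟩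
    have h1 : |(p.re : ℝ)| ≤ Y := by
      have := Complex.abs_re_le_norm (GaussianInt.toComplex p)
      rw [← GaussianInt.intCast_re] at this
      exact this.trans hp
    have h2 : |(p.im : ℝ)| ≤ Y := by
      have := Complex.abs_im_le_norm (GaussianInt.toComplex p)
      rw [← GaussianInt.intCast_im] at this
      exact this.trans hp
    rw [abs_le] at h1 h2
    have a1 : p.re ≤ ⌊Y⌋ := Int.le_floor.2 h1.2
    have a2 : -p.re ≤ ⌊Y⌋ := Int.le_floor.2 (by push_cast; linarith)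
    have a3 : p.im ≤ ⌊Y⌋ := Int.le_floor.2 h2.2
    have a4 : -p.im ≤ ⌊Y⌋ := Int.le_floor.2 (by push_cast; linarith)
    rw [Finset.mem_product, Finset.mem_Icc, Finset.mem_Icc]
    exact ⟨⟨by omega, a1⟩, ⟨by omega, a3⟩⟩
  · have h0 : (0 : ℤ) ≤ ⌊Y⌋ := Int.floor_nonneg.2 (by linarith)
    have h1 : (((Finset.Icc (-⌊Y⌋) ⌊Y⌋).card : ℕ) : ℝ) ≤ 3 * Y := by
      rw [Int.card_Icc]
      have h2 : (((⌊Y⌋ + 1 - -⌊Y⌋).toNat : ℕ) : ℤ) = ⌊Y⌋ + 1 - -⌊Y⌋ := Int.toNat_of_nonneg (by omega)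
      have h3 : (((⌊Y⌋ + 1 - -⌊Y⌋).toNat : ℕ) : ℝ) = (⌊Y⌋ : ℝ) + 1 + ⌊Y⌋ := by
        have : (((⌊Y⌋ + 1 - -⌊Y⌋).toNat : ℕ) : ℝ) = (((⌊Y⌋ + 1 - -⌊Y⌋).toNat : ℕ) : ℤ) := by push_cast; rfl
        rw [this, h2]
        push_cast
        ring
      rw [h3]
      have := Int.floor_le Y
      linarith
    have h4 : ((((Finset.Icc (-⌊Y⌋) ⌊Y⌋) ×ˢ (Finset.Icc (-⌊Y⌋) ⌊Y⌋)).image
        (fun u => (⟨u.1, u.2⟩ : GaussianInt))).card : ℝ) ≤
        ((Finset.Icc (-⌊Y⌋) ⌊Y⌋).card : ℝ) * ((Finset.Icc (-⌊Y⌋) ⌊Y⌋).card : ℝ) := by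
      have := Finset.card_image_le (s := (Finset.Icc (-⌊Y⌋) ⌊Y⌋) ×ˢ (Finset.Icc (-⌊Y⌋) ⌊Y⌋))
        (f := fun u : ℤ × ℤ => (⟨u.1, u.2⟩ : GaussianInt))
      rw [Finset.card_product] at this
      exact_mod_cast this
    refine h4.trans ?_
    have h5 : (0 : ℝ) ≤ ((Finset.Icc (-⌊Y⌋) ⌊Y⌋).card : ℝ) := Nat.cast_nonneg _
    nlinarith

/-- exceptional triples with Gaussian numerators -/
abbrev Idx (D : ℕ) := (GaussianInt × GaussianInt × GaussianInt) × (Fin D → GaussianInt)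

def Exc' {D : ℕ} (R B lam : ℝ) : Set (Idx D) := {i | i.1 ∈ All B lam ∧ ∀ j, nm (i.2 j) ≤ R * height i.1}

noncomputable def hh {D : ℕ} (i : Idx D) : ℝ := max 1 (height i.1)

noncomputable def ctr {D : ℕ} (y : Fin D → ℂ) (i : Idx D) : Fin D → ℂ :=
  fun j => (GaussianInt.toComplex (i.2 j) + y j) / GaussianInt.toComplex i.1.2.2

lemma height_nonneg (t : GaussianInt × GaussianInt × GaussianInt) : 0 ≤ height t :=
  (norm_nonneg _).trans (le_max_left _ _)

lemma expo_nonneg {lam : ℝ} (h : 0 < lam) : 0 ≤ expo lam :=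
  add_nonneg (le_min (by positivity) (by norm_num)) (le_max_right _ _)

lemma sparse (D : ℕ) {R lam : ℝ} (B : ℝ) (hR : 1 ≤ R) (hlam : 0 < lam) :
    Sparse (Exc' (D := D) R B lam) hh (2 * expo lam + 2 * D) := by
  classical
  intro ε hε
  obtain ⟨C, hC⟩ := WindowsWithoutExceptions.count B lam (ε / 2) hlam (by positivity)
  refine ⟨|C| * (9 * R ^ 2) ^ D, fun X hX => ?_⟩
  have hX0 : (0 : ℝ) < X := by linarith
  obtain ⟨hfin, hcard⟩ := hC (X ^ 2) (one_le_pow₀ hX)
  obtain ⟨F, hF, hFc⟩ := box (R * X) (one_le_mul_of_one_le_of_one_le hR hX)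
  have hsub : {i | i ∈ Exc' (D := D) R B lam ∧ hh i ≤ X} ⊆
      ((hfin.toFinset ×ˢ Fintype.piFinset (fun _ : Fin D => F) : Finset (Idx D)) : Set (Idx D)) := by
    rintro i ⟨⟨h1, h2⟩, h3⟩
    have h4 : height i.1 ≤ X := (le_max_right _ _).trans h3
    rw [Finset.mem_coe, Finset.mem_product, Set.Finite.mem_toFinset, Fintype.mem_piFinset]
    refine ⟨⟨h1, pow_le_pow_left₀ (height_nonneg _) h4 2⟩, fun j => hF _ ((h2 j).trans ?_)⟩
    exact mul_le_mul_of_nonneg_left h4 (by linarith)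
  refine ⟨(Finset.finite_toSet _).subset hsub, ?_⟩
  have h1 := Set.ncard_le_ncard hsub (Finset.finite_toSet _)
  rw [Set.ncard_coe_finset, Finset.card_product, Fintype.card_piFinset, Finset.prod_const, Finset.card_univ,
    Fintype.card_fin, ← Set.ncard_eq_toFinset_card _ hfin] at h1
  have h2 : (({i | i ∈ Exc' (D := D) R B lam ∧ hh i ≤ X}.ncard : ℕ) : ℝ) ≤
      ({t | t ∈ All B lam ∧ height t ^ 2 ≤ X ^ 2}.ncard : ℝ) * (F.card : ℝ) ^ D := by exact_mod_cast h1
  refine h2.trans ?_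
  have h3 : ((X ^ 2) ^ (expo lam + ε / 2) : ℝ) = X ^ (2 * expo lam + ε) := by
    rw [← Real.rpow_natCast, ← Real.rpow_mul hX0.le]
    congr 1
    push_cast
    ring
  rw [h3] at hcard
  have h4 : (F.card : ℝ) ^ D ≤ (9 * R ^ 2) ^ D * X ^ (2 * (D : ℝ)) := by
    calc (F.card : ℝ) ^ D ≤ (9 * (R * X) ^ 2) ^ D := pow_le_pow_left₀ (Nat.cast_nonneg _) hFc D
      _ = (9 * R ^ 2) ^ D * X ^ (2 * D) := by
        rw [pow_mul, ← mul_pow]
        ring
      _ = (9 * R ^ 2) ^ D * X ^ (2 * (D : ℝ)) := by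
        rw [← Real.rpow_natCast X (2 * D)]
        push_cast
        rfl
  calc ({t | t ∈ All B lam ∧ height t ^ 2 ≤ X ^ 2}.ncard : ℝ) * (F.card : ℝ) ^ D
      ≤ (|C| * X ^ (2 * expo lam + ε)) * ((9 * R ^ 2) ^ D * X ^ (2 * (D : ℝ))) := by
        refine mul_le_mul (hcard.trans ?_) h4 (by positivity) (by positivity)
        exact mul_le_mul_of_nonneg_right (le_abs_self C) (by positivity)
    _ = |C| * (9 * R ^ 2) ^ D * (X ^ (2 * expo lam + ε) * X ^ (2 * (D : ℝ))) := by ring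
    _ = |C| * (9 * R ^ 2) ^ D * X ^ (2 * expo lam + 2 * (D : ℝ) + ε) := by
        rw [← Real.rpow_add hX0]
        congr 2
        ring

/-- balls in `ℂ ^ D` -/
lemma piC_ball {D : ℕ} (x : Fin D → ℂ) (r : ℝ) (hr : 0 ≤ r) :
    volume (Metric.closedBall x r) ≤ ENNReal.ofReal (Real.pi ^ D * r ^ (2 * (D : ℝ))) := by
  rw [closedBall_pi _ hr, volume_pi, Measure.pi_pi]
  calc ∏ i, volume (Metric.closedBall (x i) r)
      ≤ ∏ _i : Fin D, ENNReal.ofReal (Real.pi * r ^ (2 : ℝ)) :=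
        Finset.prod_le_prod' fun i _ => Pool.Agent.X149.MetricBalls.complex_ball (x i) r hr
    _ = ENNReal.ofReal (Real.pi ^ D * r ^ (2 * (D : ℝ))) := by
        rw [Finset.prod_const, Finset.card_univ, Fintype.card_fin, ← ENNReal.ofReal_pow (by positivity), mul_pow,
          Real.rpow_mul hr, Real.rpow_natCast]

lemma sub {D : ℕ} {A B θ lam N : ℝ} (hA : 0 ≤ A) (hθ : 0 ≤ θ) (y z : Fin D → ℂ) (hz : ‖z‖ ≤ N) :
    {q : GaussianInt | Approx A θ y z q ∧ ¬ Good B lam q} ⊆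
      (fun i : Idx D => i.1.2.2) '' Near (Exc' (N + ‖y‖ + A + 1) B lam) hh (ctr y) A (1 + θ) z := by
  rintro q ⟨h1, h2⟩
  unfold Good at h2
  push Not at h2
  obtain ⟨a, b, ha, hb, hab, hcop, h3, h4, S, hS, h5⟩ := h2
  have ha1 := one_le_nm ha
  have hq1 : 1 ≤ nm q := ha1.trans h3
  have hq0 : q ≠ 0 := by
    rintro rfl
    have : nm (0 : GaussianInt) = 0 := by unfold nm; simp
    rw [this] at hq1
    linarith
  choose p hp using h1
  have hht : height (a, b, q) = nm q := by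
    unfold height
    exact le_antisymm (max_le h3 (max_le h4 le_rfl)) (le_max_of_le_right (le_max_right _ _))
  have hh1 : hh ((a, b, q), p) = nm q := by
    unfold hh
    rw [hht]
    exact max_eq_right hq1
  have hθ1 : nm q ^ (-θ) ≤ 1 := Real.rpow_le_one_of_one_le_of_nonpos hq1 (by linarith)
  have hqc : GaussianInt.toComplex q ≠ 0 := by
    intro h
    have : nm q = 0 := by unfold nm; rw [h, norm_zero]
    linarith
  refine ⟨((a, b, q), p), ⟨⟨?_, fun j => ?_⟩, ?_⟩, rfl⟩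
  · refine Set.mem_iUnion.2 ⟨height (a, b, q), ha, hb, hq0, hab, hcop, le_refl _, S, hS, ?_⟩
    change ∏ Q ∈ S, ‖GaussianInt.toComplex Q‖ ≤ B * height (a, b, q) ^ lam
    rw [hht]
    exact h5
  · rw [hht]
    have e1 : GaussianInt.toComplex (p j) = GaussianInt.toComplex q * z j - y j -
        (GaussianInt.toComplex q * z j - GaussianInt.toComplex (p j) - y j) := by ring
    have e2 : nm (p j) ≤ nm q * ‖z j‖ + ‖y j‖ + A * nm q ^ (-θ) := by
      unfold nm
      rw [e1]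
      refine (norm_sub_le _ _).trans (add_le_add ((norm_sub_le _ _).trans ?_) (hp j))
      rw [norm_mul]
    have e3 : ‖z j‖ ≤ N := (norm_le_pi_norm z j).trans hz
    have e4 : ‖y j‖ ≤ ‖y‖ := norm_le_pi_norm y j
    have e5 := norm_nonneg y
    change nm (p j) ≤ _
    nlinarith
  · rw [hh1, dist_pi_le_iff (mul_nonneg hA (Real.rpow_nonneg (nm_nonneg q) _))]
    intro j
    rw [Complex.dist_eq]
    unfold ctr
    have e1 : z j - (GaussianInt.toComplex (p j) + y j) / GaussianInt.toComplex q =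
        (GaussianInt.toComplex q * z j - GaussianInt.toComplex (p j) - y j) / GaussianInt.toComplex q := by
      field_simp
      ring
    change ‖z j - (GaussianInt.toComplex (p j) + y j) / GaussianInt.toComplex q‖ ≤ _
    rw [e1, norm_div]
    have e2 : nm q ^ (-(1 + θ)) = nm q ^ (-θ) / nm q := by
      have : -(1 + θ) = -θ - 1 := by ring
      rw [this, Real.rpow_sub (by linarith), Real.rpow_one]
    rw [e2, mul_div_assoc']
    exact div_le_div_of_nonneg_right (hp j) (norm_nonneg _)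

lemma mono {D : ℕ} {A A' B B' θ lam : ℝ} (hA : A ≤ A') (hB : B ≤ B') (y z : Fin D → ℂ) :
    {q : GaussianInt | Approx A θ y z q ∧ ¬ Good B lam q} ⊆ {q : GaussianInt | Approx A' θ y z q ∧ ¬ Good B' lam q} := by
  rintro q ⟨h1, h2⟩
  refine ⟨fun j => ?_, fun h => h2 fun a b ha hb hab hc h3 h4 S hS => ?_⟩
  · obtain ⟨p, hp⟩ := h1 j
    exact ⟨p, hp.trans (mul_le_mul_of_nonneg_right hA (Real.rpow_nonneg (nm_nonneg q) _))⟩
  · exact (mul_le_mul_of_nonneg_right hB (Real.rpow_nonneg (nm_nonneg q) _)).trans_lt (h a b ha hb hab hc h3 h4 S hS)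

theorem gaussian (D : ℕ) (y : Fin D → ℂ) (θ lam : ℝ) (hθ : 0 ≤ θ) (hlam : 0 < lam) :
    (expo lam < D * θ → ∀ᵐ z : Fin D → ℂ, ∀ A B : ℝ,
      {q : GaussianInt | Approx A θ y z q ∧ ¬ Good B lam q}.Finite) ∧
    (∀ A B : ℝ, dimH {z : Fin D → ℂ | {q : GaussianInt | Approx A θ y z q ∧ ¬ Good B lam q}.Infinite} ≤
      ENNReal.ofReal ((2 * expo lam + 2 * D) / (1 + θ))) := by
  have hs := expo_nonneg hlam
  have hD : (0 : ℝ) ≤ D := Nat.cast_nonneg D
  constructor
  · intro hlt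
    have key : ∀ᵐ z : Fin D → ℂ, ∀ N A B : ℕ,
        (Near (Exc' ((N : ℝ) + ‖y‖ + A + 1) (B : ℝ) lam) hh (ctr y) (A : ℝ) (1 + θ) z).Finite := by
      simp only [ae_all_iff]
      intro N A B
      have hR : 1 ≤ (N : ℝ) + ‖y‖ + A + 1 := by
        have := norm_nonneg y
        have : (0 : ℝ) ≤ N := Nat.cast_nonneg N
        have : (0 : ℝ) ≤ A := Nat.cast_nonneg A
        linarith
      exact near_null (μ := (volume : Measure (Fin D → ℂ))) (by positivity) piC_ball (h := hh)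
        (fun i => le_max_left _ _) (ctr y) (A : ℝ) (sparse D (B : ℝ) hR hlam) (by positivity) (by nlinarith)
    filter_upwards [key] with z hz A B
    obtain ⟨N, hN⟩ := exists_nat_ge ‖z‖
    obtain ⟨A', hA'⟩ := exists_nat_ge A
    obtain ⟨B', hB'⟩ := exists_nat_ge B
    exact ((hz N A' B').image _).subset ((mono hA' hB' y z).trans (sub (Nat.cast_nonneg A') hθ y z hN))
  · intro A B
    obtain ⟨A', hA'⟩ := exists_nat_ge A
    have h1 : {z : Fin D → ℂ | {q : GaussianInt | Approx A θ y z q ∧ ¬ Good B lam q}.Infinite} ⊆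
        ⋃ N : ℕ, {z : Fin D → ℂ | (Near (Exc' ((N : ℝ) + ‖y‖ + A' + 1) B lam) hh (ctr y) (A' : ℝ) (1 + θ)
          z).Infinite} := by
      intro z hz
      obtain ⟨N, hN⟩ := exists_nat_ge ‖z‖
      rw [Set.mem_iUnion]
      refine ⟨N, fun h => hz ?_⟩
      exact (h.image _).subset ((mono hA' le_rfl y z).trans (sub (Nat.cast_nonneg A') hθ y z hN))
    refine (dimH_mono h1).trans ?_
    rw [dimH_iUnion]
    refine iSup_le fun N => ?_
    have hR : 1 ≤ (N : ℝ) + ‖y‖ + A' + 1 := by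
      have := norm_nonneg y
      have : (0 : ℝ) ≤ N := Nat.cast_nonneg N
      have : (0 : ℝ) ≤ A' := Nat.cast_nonneg A'
      linarith
    exact near_dim (h := hh) (fun i => le_max_left _ _) (ctr y) (A' : ℝ) (sparse D B hR hlam) (by positivity)
      (by linarith)

/-- all coprime triples `a + b = c` of nonzero Gaussian integers with `H ^ 2 = n` satisfy `rad (abc) > B H ^ λ` -/
def GoodHeight (lam B : ℝ) (n : ℕ) : Prop :=
  ∀ a b c : GaussianInt, a ≠ 0 → b ≠ 0 → c ≠ 0 → a + b = c → IsCoprime a b →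
    height (a, b, c) ^ 2 = n → ∀ S : Finset GaussianInt, IsPrimeSystem S (a * b * c) →
      B * height (a, b, c) ^ lam < ∏ Q ∈ S, ‖GaussianInt.toComplex Q‖

theorem sparse_heights (lam B : ℝ) (hlam : 0 < lam) :
    Pool.Agent.X283.DA.Sparse {n : ℕ | ¬ GoodHeight lam B n} (expo lam) := by
  refine Pool.Agent.X283.DA.sparse_of_nat (expo_nonneg hlam) fun ε hε => ?_
  obtain ⟨C, hC⟩ := WindowsWithoutExceptions.count B lam ε hlam hε
  refine ⟨C, fun X hX => ?_⟩
  obtain ⟨hfin, hcard⟩ := hC X (by exact_mod_cast hX)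
  have hsub : (fun n : ℕ => (n : ℝ)) '' {n : ℕ | n ∈ {n : ℕ | ¬ GoodHeight lam B n} ∧ n ≤ X} ⊆
      (fun e => height e ^ 2) '' {e | e ∈ All B lam ∧ height e ^ 2 ≤ X} := by
    rintro _ ⟨n, ⟨h1, h2⟩, rfl⟩
    unfold GoodHeight at h1
    simp only [Set.mem_setOf_eq, not_forall, not_lt] at h1
    obtain ⟨a, b, c, ha, hb, hc, habc, hcop, hn, S, hS, h3⟩ := h1
    refine ⟨(a, b, c), ⟨Set.mem_iUnion.2 ⟨height (a, b, c), ha, hb, hc, habc, hcop, le_refl _, S, hS, h3⟩, ?_⟩, hn⟩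
    rw [hn]
    exact_mod_cast h2
  have h1 := (Set.ncard_le_ncard hsub (hfin.image _)).trans (Set.ncard_image_le hfin)
  rw [Set.ncard_image_of_injective _ Nat.cast_injective] at h1
  exact (Nat.cast_le.2 h1).trans hcard

/-- **Theorem.** (1), (2): the Gaussian denominators. (3) Let `λ > 0` and let `B` be real. The property `GoodHeight λ B` of
natural numbers holds for the denominators of good simultaneous and of good inhomogeneous rational approximations, with the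
exponent `expo λ = min (4 λ / 7) (6 / 11) + max (λ - 1) 0`. -/
theorem result :
    (∀ (D : ℕ) (y : Fin D → ℂ) (θ lam : ℝ), 0 ≤ θ → 0 < lam →
      (expo lam < D * θ → ∀ᵐ z : Fin D → ℂ, ∀ A B : ℝ,
        {q : GaussianInt | Approx A θ y z q ∧ ¬ Good B lam q}.Finite) ∧
      (∀ A B : ℝ, dimH {z : Fin D → ℂ | {q : GaussianInt | Approx A θ y z q ∧ ¬ Good B lam q}.Infinite} ≤
        ENNReal.ofReal ((2 * expo lam + 2 * D) / (1 + θ)))) ∧
    (∀ lam B : ℝ, 0 < lam →
      Pool.Agent.X283.DA.GoodAtDenominators (GoodHeight lam B) (expo lam) ∧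
        Pool.Agent.X283.DA.GoodAtApproximations (GoodHeight lam B) (expo lam)) :=
  ⟨fun D y θ lam hθ hlam => gaussian D y θ lam hθ hlam,
    fun lam B hlam => (Pool.Agent.X283.DA.pack _ (expo_nonneg hlam) (sparse_heights lam B hlam)).2.2⟩

end Pool.Agent.Results.MP_dc323a_nt.Denominators
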