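import Pool.Agent.Results.MP_dc323a_nt.ExceptionalSetTwelveElevenths
import Pool.Agent.Results.MP_dc323a_nt.GaussianRadicalCount
import Pool.Agent.X149.MetricBalls

/-!
# The Gaussian abc conjecture near almost every complex number

For a coprime triple `a + b = c` of Gaussian integers, `a b c ≠ 0`, consider the fraction `a / c` as an
approximation of a complex number `z`. For almost every `z` all but finitely many of the fractions with
`|z - a / c| ≤ A |c| ^ (-2)` (the exponent of Dirichlet's theorem over `ℤ[i]`) satisfy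
`rad (abc) > B |c| ^ λ`, for all `λ < 3`, `A`, `B`; the exponent `3` is optimal, and the conjecture asks
for `λ < 1`. The set of the `z` which have infinitely many approximations of order `τ` violating
`rad (abc) > B |c| ^ λ` has Hausdorff dimension at most `expo λ / τ`, which is `12 / (11 τ)` for `λ = 1`.
-/

set_option autoImplicit false

open MeasureTheory Filter Set
open scoped ENNReal NNReal

namespace Pool.Agent.Results.MP_dc323a_nt.MetricTheory

open Pool.Agent.X149.MetricBalls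
open Pool.Agent.Results.MP_dc323a_nt.GaussianRadicalCount (rad size Triples ByRadical)
open Pool.Agent.Results.MP_dc323a_nt.ExceptionalSetTwelveElevenths (Exc IsPrimeSystem height)

/-- the fractions `a / c` in lowest terms with `a (c - a) c ≠ 0`, as pairs `(a, c)` -/
def Frac : Set (GaussianInt × GaussianInt) :=
  {p | p.1 ≠ 0 ∧ p.2 ≠ 0 ∧ p.2 - p.1 ≠ 0 ∧ IsCoprime p.1 p.2}

/-- the complex number `a / c` -/
noncomputable def frac (p : GaussianInt × GaussianInt) : ℂ :=
  GaussianInt.toComplex p.1 / GaussianInt.toComplex p.2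

/-- `|c|` -/
noncomputable def den (p : GaussianInt × GaussianInt) : ℝ := ‖GaussianInt.toComplex p.2‖

/-- the radical of `a b c`, where `b = c - a` -/
noncomputable def radical (p : GaussianInt × GaussianInt) : ℝ := rad (p.1 * (p.2 - p.1) * p.2)

/-- the fractions `a / c` with `|z - a / c| ≤ A |c| ^ (-τ)` and `rad (a b c) ≤ B |c| ^ lam` -/
def Bad (A B τ lam : ℝ) (z : ℂ) : Set (GaussianInt × GaussianInt) :=
  {p | p ∈ Frac ∧ dist z (frac p) ≤ A * den p ^ (-τ) ∧ radical p ≤ B * den p ^ lam}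

/-- the exponent -/
noncomputable def expo (lam : ℝ) : ℝ :=
  min (min (8 * lam / 7) (12 / 11) + 2 * max (lam - 1) 0) (4 * lam / 3)

lemma expo_nonneg {lam : ℝ} (h : 0 ≤ lam) : 0 ≤ expo lam := by
  unfold expo
  apply le_min
  · apply add_nonneg
    · apply le_min <;> linarith
    · have := le_max_right (lam - 1) 0
      linarith
  · linarith

lemma expo_cont : Continuous expo := by
  unfold expo
  fun_prop

/-- the size of a fraction -/
noncomputable def sz (p : GaussianInt × GaussianInt) : ℝ := max 1 (size p.1 (p.2 - p.1))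

lemma one_le_nm {x : GaussianInt} (hx : x ≠ 0) : 1 ≤ ‖GaussianInt.toComplex x‖ :=
  Pool.Agent.TH402.AK.one_le_nm hx

lemma size_eq (p : GaussianInt × GaussianInt) : size p.1 (p.2 - p.1) =
    max ‖GaussianInt.toComplex p.1‖ (max ‖GaussianInt.toComplex (p.2 - p.1)‖ ‖GaussianInt.toComplex p.2‖) := by
  unfold size
  rw [add_sub_cancel]

lemma den_le {p : GaussianInt × GaussianInt} : den p ≤ size p.1 (p.2 - p.1) := by
  rw [size_eq]
  exact le_max_of_le_right (le_max_right _ _)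

lemma sz_eq {p : GaussianInt × GaussianInt} (hp : p ∈ Frac) : sz p = size p.1 (p.2 - p.1) := by
  unfold sz
  apply max_eq_right
  exact (one_le_nm hp.2.1).trans den_le

lemma prime_system {n : GaussianInt} (hn : n ≠ 0) : ∃ S : Finset GaussianInt, IsPrimeSystem S n ∧
    ∏ Q ∈ S, ‖GaussianInt.toComplex Q‖ = rad n := by
  have hfin : {Q : GaussianInt | Prime Q ∧ Q ∣ n ∧ (0 < Q.re ∧ 0 ≤ Q.im)}.Finite :=
    Pool.Agent.TH402.AK.quad_finite hn
  refine ⟨hfin.toFinset, ⟨?_, ?_, ?_⟩, ?_⟩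
  · intro Q hQ
    rw [Set.Finite.mem_toFinset] at hQ
    exact ⟨hQ.1, hQ.2.1⟩
  · intro Q hQ hQn
    obtain ⟨w, hw, hass⟩ := Pool.Agent.TH402.AK.exists_quadrant hQ.ne_zero
    refine ⟨w, ?_, hass⟩
    rw [Set.Finite.mem_toFinset]
    exact ⟨hass.prime hQ, hass.symm.dvd.trans hQn, hw⟩
  · intro Q hQ R hR h
    rw [Set.Finite.mem_toFinset] at hQ hR
    exact Pool.Agent.TH402.AK.quadrant_uniq hQ.2.2 hR.2.2 h
  · unfold rad
    rw [finprod_mem_eq_finite_toFinset_prod _ hfin]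

/-- the fractions of small radical -/
def Small (B lam : ℝ) : Set (GaussianInt × GaussianInt) :=
  {p | p ∈ Frac ∧ radical p ≤ B * sz p ^ lam}

lemma count_one (B : ℝ) {lam : ℝ} (hlam : 0 < lam) :
    Sparse (Small B lam) sz (min (8 * lam / 7) (12 / 11) + 2 * max (lam - 1) 0) := by
  intro ε hε
  obtain ⟨C, hC⟩ := ExceptionalSetTwelveElevenths.result B lam ε hlam hε
  refine ⟨C, fun X hX => ?_⟩
  obtain ⟨h1, h2⟩ := hC X hX
  set φ : GaussianInt × GaussianInt → GaussianInt × GaussianInt × GaussianInt :=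
    fun p => (p.1, p.2 - p.1, p.2) with hφ
  have hmaps : Set.MapsTo φ {p | p ∈ Small B lam ∧ sz p ≤ X} (Exc B lam X) := by
    rintro p ⟨⟨hp, hr⟩, hX⟩
    have hs := sz_eq hp
    rw [hs] at hr hX
    obtain ⟨g1, g2, g3, g4⟩ := hp
    have hn : p.1 * (p.2 - p.1) * p.2 ≠ 0 := mul_ne_zero (mul_ne_zero g1 g3) g2
    obtain ⟨S, hS1, hS2⟩ := prime_system hn
    have hh : height (φ p) = size p.1 (p.2 - p.1) := by
      rw [size_eq]
      rfl
    refine ⟨g1, g3, g2, by simp [hφ], ?_, ?_, S, hS1, ?_⟩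
    · show IsCoprime p.1 (p.2 - p.1)
      have : p.2 - p.1 = p.2 + p.1 * (-1) := by ring
      rw [this]
      exact IsCoprime.add_mul_left_right g4 (-1)
    · rw [hh]; exact hX
    · rw [hh, hS2]; exact hr
  have hinj : Set.InjOn φ {p | p ∈ Small B lam ∧ sz p ≤ X} := by
    intro p _ q _ h
    simp only [hφ, Prod.mk.injEq] at h
    exact Prod.ext h.1 h.2.2
  refine ⟨Set.Finite.of_injOn hmaps hinj h1, ?_⟩
  refine le_trans ?_ h2
  exact Nat.cast_le.2 (Set.ncard_le_ncard_of_injOn φ hmaps hinj h1)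

lemma count_two (B : ℝ) {lam : ℝ} (hlam : 0 < lam) : Sparse (Small B lam) sz (4 * lam / 3) := by
  intro ε hε
  set δ : ℝ := ε / (2 * lam) with hδ
  have hδ0 : 0 < δ := by positivity
  obtain ⟨_, C, _, _, hC, _⟩ := GaussianRadicalCount.result δ hδ0
  set B' : ℝ := max B 1 with hB'
  have hB1 : 1 ≤ B' := le_max_right _ _
  refine ⟨|C| * ((1 + 2 / ε) * B' ^ (4 / 3 + δ)), fun X hX => ?_⟩
  have hX0 : 0 < X := by linarith
  have hlogX := Real.log_nonneg hX
  have hXl : 1 ≤ X ^ lam := Real.one_le_rpow hX hlam.le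
  have hBX : 1 ≤ B' * X ^ lam := by nlinarith
  obtain ⟨h1, h2⟩ := hC (B' * X ^ lam) (1 + Real.log X) hBX (by linarith)
  set φ : GaussianInt × GaussianInt → GaussianInt × GaussianInt := fun p => (p.1, p.2 - p.1) with hφ
  have hmaps : Set.MapsTo φ {p | p ∈ Small B lam ∧ sz p ≤ X}
      (ByRadical (B' * X ^ lam) (1 + Real.log X)) := by
    rintro p ⟨⟨hp, hr⟩, hX'⟩
    have hs := sz_eq hp
    have hs1 : 1 ≤ sz p := le_max_left _ _
    obtain ⟨g1, g2, g3, g4⟩ := hp
    refine ⟨⟨g1, g3, ?_, ?_⟩, ?_, ?_⟩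
    · show p.1 + (p.2 - p.1) ≠ 0
      rw [add_sub_cancel]; exact g2
    · show IsCoprime p.1 (p.2 - p.1)
      have : p.2 - p.1 = p.2 + p.1 * (-1) := by ring
      rw [this]
      exact IsCoprime.add_mul_left_right g4 (-1)
    · show rad (p.1 * (p.2 - p.1) * (p.1 + (p.2 - p.1))) ≤ _
      rw [add_sub_cancel]
      refine hr.trans ?_
      have e1 : sz p ^ lam ≤ X ^ lam := Real.rpow_le_rpow (by linarith) hX' hlam.le
      exact mul_le_mul (le_max_left _ _) e1 (by positivity) (by linarith)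
    · show Real.log (size p.1 (p.2 - p.1)) ≤ _
      rw [← hs]
      have := Real.log_le_log (by linarith) hX'
      linarith
  have hinj : Set.InjOn φ {p | p ∈ Small B lam ∧ sz p ≤ X} := by
    intro p _ q _ h
    simp only [hφ, Prod.mk.injEq] at h
    refine Prod.ext h.1 ?_
    have h3 := h.2
    rw [h.1] at h3
    exact sub_left_injective h3
  refine ⟨Set.Finite.of_injOn hmaps hinj h1, ?_⟩
  have h3 : (({p | p ∈ Small B lam ∧ sz p ≤ X}.ncard : ℕ) : ℝ) ≤
      C * (1 + Real.log X) * (B' * X ^ lam) ^ (4 / 3 + δ) :=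
    (Nat.cast_le.2 (Set.ncard_le_ncard_of_injOn φ hmaps hinj h1)).trans h2
  refine h3.trans ?_
  have h4 : (1 + Real.log X) ≤ (1 + 2 / ε) * X ^ (ε / 2) := by
    have e1 := Real.log_le_rpow_div hX0.le (half_pos hε)
    have e2 : X ^ (ε / 2) / (ε / 2) = 2 / ε * X ^ (ε / 2) := by field_simp
    have e3 : 1 ≤ X ^ (ε / 2) := Real.one_le_rpow hX (by positivity)
    rw [e2] at e1
    linarith
  have h5 : (B' * X ^ lam) ^ (4 / 3 + δ) = B' ^ (4 / 3 + δ) * X ^ (4 * lam / 3 + ε / 2) := by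
    rw [Real.mul_rpow (by linarith) (by positivity), ← Real.rpow_mul hX0.le]
    congr 2
    rw [hδ]
    field_simp
  rw [h5]
  calc C * (1 + Real.log X) * (B' ^ (4 / 3 + δ) * X ^ (4 * lam / 3 + ε / 2)) ≤
        |C| * ((1 + 2 / ε) * X ^ (ε / 2)) * (B' ^ (4 / 3 + δ) * X ^ (4 * lam / 3 + ε / 2)) := by
        apply mul_le_mul_of_nonneg_right _ (by positivity)
        exact mul_le_mul (le_abs_self C) h4 (by linarith) (abs_nonneg _)
    _ = |C| * ((1 + 2 / ε) * B' ^ (4 / 3 + δ)) * (X ^ (ε / 2) * X ^ (4 * lam / 3 + ε / 2)) := by ring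
    _ = |C| * ((1 + 2 / ε) * B' ^ (4 / 3 + δ)) * X ^ (4 * lam / 3 + ε) := by
        rw [← Real.rpow_add hX0]
        congr 2
        ring

lemma count (B : ℝ) {lam : ℝ} (hlam : 0 < lam) : Sparse (Small B lam) sz (expo lam) := by
  unfold expo
  rcases min_choice (min (8 * lam / 7) (12 / 11) + 2 * max (lam - 1) 0) (4 * lam / 3) with h | h
  · rw [h]; exact count_one B hlam
  · rw [h]; exact count_two B hlam

/-- the constant for the region `|z| ≤ R` -/
noncomputable def ra (A R : ℝ) : ℝ := 1 + R + |A|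

lemma size_le {A τ R : ℝ} {z : ℂ} (hτ : 0 ≤ τ) (hz : ‖z‖ ≤ R) {p : GaussianInt × GaussianInt}
    (hp : p ∈ Frac) (hd : dist z (frac p) ≤ A * den p ^ (-τ)) : sz p ≤ ra A R * den p := by
  have h1 : 1 ≤ den p := one_le_nm hp.2.1
  have h0 : 0 < den p := by linarith
  have hR : 0 ≤ R := (norm_nonneg z).trans hz
  have h2 : den p ^ (-τ) ≤ 1 := Real.rpow_le_one_of_one_le_of_nonpos h1 (by linarith)
  have h3 : dist z (frac p) ≤ |A| := by
    refine hd.trans ?_
    calc A * den p ^ (-τ) ≤ |A| * den p ^ (-τ) := mul_le_mul_of_nonneg_right (le_abs_self A) (by positivity)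
      _ ≤ |A| * 1 := mul_le_mul_of_nonneg_left h2 (abs_nonneg _)
      _ = |A| := mul_one _
  have h4 : ‖frac p‖ ≤ R + |A| := by
    have : ‖frac p‖ ≤ ‖z‖ + dist z (frac p) := by
      rw [dist_eq_norm]
      calc ‖frac p‖ = ‖z - (z - frac p)‖ := by rw [sub_sub_cancel]
        _ ≤ ‖z‖ + ‖z - frac p‖ := norm_sub_le _ _
    linarith
  have h5 : ‖GaussianInt.toComplex p.1‖ = ‖frac p‖ * den p := by
    unfold frac den
    rw [norm_div, div_mul_cancel₀]
    exact h0.ne'
  have h6 : ‖GaussianInt.toComplex p.1‖ ≤ (R + |A|) * den p := by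
    rw [h5]; exact mul_le_mul_of_nonneg_right h4 h0.le
  have h7 : ‖GaussianInt.toComplex (p.2 - p.1)‖ ≤ ra A R * den p := by
    rw [map_sub]
    refine (norm_sub_le _ _).trans ?_
    have : ra A R * den p = den p + (R + |A|) * den p := by unfold ra; ring
    rw [this]
    exact add_le_add le_rfl h6
  rw [sz_eq hp, size_eq]
  have h8 : den p ≤ ra A R * den p := by
    apply le_mul_of_one_le_left h0.le
    unfold ra
    linarith [abs_nonneg A]
  apply max_le _ (max_le h7 h8)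
  refine h6.trans (mul_le_mul_of_nonneg_right ?_ h0.le)
  unfold ra
  linarith

lemma bad_near {A B τ lam R : ℝ} {z : ℂ} (hτ : 0 ≤ τ) (hlam : 0 ≤ lam) (hz : ‖z‖ ≤ R) :
    Bad A B τ lam z ⊆ Near (Small |B| lam) sz frac (|A| * ra A R ^ τ) τ z := by
  rintro p ⟨hp, hd, hr⟩
  have h1 : 1 ≤ den p := one_le_nm hp.2.1
  have h0 : 0 < den p := by linarith
  have hR : 0 ≤ R := (norm_nonneg z).trans hz
  have hra : 0 < ra A R := by unfold ra; linarith [abs_nonneg A]
  have h2 := size_le hτ hz hp hd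
  have h3 : den p ≤ sz p := by rw [sz_eq hp]; exact den_le
  have hs0 : 0 < sz p := h0.trans_le h3
  refine ⟨⟨hp, hr.trans ?_⟩, hd.trans ?_⟩
  · exact mul_le_mul (le_abs_self B) (Real.rpow_le_rpow h0.le h3 hlam) (by positivity) (abs_nonneg _)
  · have h4 : den p ^ (-τ) ≤ ra A R ^ τ * sz p ^ (-τ) := by
      have h5 : sz p / ra A R ≤ den p := by
        rw [div_le_iff₀ hra]
        linarith
      have h6 := Real.rpow_le_rpow_of_nonpos (div_pos hs0 hra) h5 (by linarith : -τ ≤ 0)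
      refine h6.trans (le_of_eq ?_)
      rw [Real.div_rpow hs0.le hra.le, Real.rpow_neg hra.le, div_inv_eq_mul, mul_comm]
    calc A * den p ^ (-τ) ≤ |A| * den p ^ (-τ) := mul_le_mul_of_nonneg_right (le_abs_self A) (by positivity)
      _ ≤ |A| * (ra A R ^ τ * sz p ^ (-τ)) := mul_le_mul_of_nonneg_left h4 (abs_nonneg _)
      _ = |A| * ra A R ^ τ * sz p ^ (-τ) := by ring

instance : Countable GaussianInt := by
  have : Function.Injective (fun z : GaussianInt => (z.re, z.im)) := by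
    intro z w h
    simp only [Prod.mk.injEq] at h
    exact Zsqrtd.ext h.1 h.2
  exact this.countable

lemma bad_mono {A A' B B' τ τ' lam lam' : ℝ} (hA : A ≤ A') (hA' : 0 ≤ A') (hB : B ≤ B') (hB' : 0 ≤ B')
    (hτ : τ' ≤ τ) (hlam : lam ≤ lam') (z : ℂ) : Bad A B τ lam z ⊆ Bad A' B' τ' lam' z := by
  rintro p ⟨hp, hd, hr⟩
  have h1 : 1 ≤ den p := one_le_nm hp.2.1
  refine ⟨hp, hd.trans ?_, hr.trans ?_⟩
  · exact mul_le_mul hA (Real.rpow_le_rpow_of_exponent_le h1 (by linarith)) (by positivity) hA'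
  · exact mul_le_mul hB (Real.rpow_le_rpow_of_exponent_le h1 hlam) (by positivity) hB'

lemma one_null (R : ℕ) (A B : ℝ) {τ lam : ℝ} (hτ : 0 ≤ τ) (hlam : 0 < lam) (h : expo lam < 2 * τ) :
    ∀ᵐ z : ℂ, ‖z‖ ≤ R → (Bad A B τ lam z).Finite := by
  have h1 := near_null (μ := (volume : Measure ℂ)) Real.pi_pos.le complex_ball (h := sz)
    (fun p => le_max_left _ _) frac (|A| * ra A R ^ τ) (count |B| hlam) (expo_nonneg hlam.le) h
  filter_upwards [h1] with z hz hzR
  exact hz.subset (bad_near hτ hlam.le hzR)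

/-- all parameters at once -/
lemma all_null : ∀ᵐ z : ℂ, ∀ A B τ lam : ℝ, 0 ≤ τ → 0 < lam → expo lam < 2 * τ →
    (Bad A B τ lam z).Finite := by
  have h : ∀ᵐ z : ℂ, ∀ (R A B : ℕ) (τ lam : ℚ), (0 : ℝ) ≤ τ → (0 : ℝ) < lam → expo lam < 2 * τ →
      ‖z‖ ≤ R → (Bad A B τ lam z).Finite := by
    simp only [ae_all_iff]
    intro R A B τ lam hτ hlam h
    exact one_null R A B hτ hlam h
  filter_upwards [h] with z hz A B τ lam hτ hlam hx
  obtain ⟨R, hR⟩ := exists_nat_ge ‖z‖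
  obtain ⟨A', hA'⟩ := exists_nat_ge A
  obtain ⟨B', hB'⟩ := exists_nat_ge B
  have hx0 := expo_nonneg hlam.le
  obtain ⟨τ', h1, h2⟩ := exists_rat_btwn (show (expo lam + 2 * τ) / 4 < τ by linarith)
  have h3 := (expo_cont.tendsto lam).eventually
    (gt_mem_nhds (show expo lam < (expo lam + 2 * τ) / 2 by linarith))
  rw [Metric.eventually_nhds_iff] at h3
  obtain ⟨ε, hε, h4⟩ := h3
  obtain ⟨lam', h5, h6⟩ := exists_rat_btwn (show lam < lam + ε by linarith)
  have h7 : expo lam' < (expo lam + 2 * τ) / 2 := by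
    apply h4
    rw [Real.dist_eq, abs_of_pos (by linarith)]
    linarith
  refine (hz R A' B' τ' lam' (by linarith) (by linarith) (by linarith) hR).subset ?_
  exact bad_mono hA' (Nat.cast_nonneg _) hB' (Nat.cast_nonneg _) h2.le h5.le z

lemma dim_bound (A B : ℝ) {τ lam : ℝ} (hτ : 0 < τ) (hlam : 0 < lam) :
    dimH {z : ℂ | (Bad A B τ lam z).Infinite} ≤ ENNReal.ofReal (expo lam / τ) := by
  have h1 : {z : ℂ | (Bad A B τ lam z).Infinite} ⊆
      ⋃ R : ℕ, {z : ℂ | (Near (Small |B| lam) sz frac (|A| * ra A R ^ τ) τ z).Infinite} := by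
    intro z hz
    obtain ⟨R, hR⟩ := exists_nat_ge ‖z‖
    rw [Set.mem_iUnion]
    exact ⟨R, hz.mono (bad_near hτ.le hlam.le hR)⟩
  refine (dimH_mono h1).trans ?_
  rw [dimH_iUnion]
  exact iSup_le fun R => near_dim (h := sz) (fun p => le_max_left _ _) frac _ (count |B| hlam)
    (expo_nonneg hlam.le) hτ

/-- the trivial upper bound for the radical -/
lemma upper {A τ : ℝ} (hτ : 0 ≤ τ) (z : ℂ) {p : GaussianInt × GaussianInt} (hp : p ∈ Frac)
    (hd : dist z (frac p) ≤ A * den p ^ (-τ)) : radical p ≤ (1 + ‖z‖ + |A|) ^ 2 * den p ^ (3 : ℝ) := by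
  have h1 : 1 ≤ den p := one_le_nm hp.2.1
  have h2 := size_le hτ le_rfl hp hd
  rw [sz_eq hp, size_eq] at h2
  have h3 : ‖GaussianInt.toComplex p.1‖ ≤ (1 + ‖z‖ + |A|) * den p := (le_max_left _ _).trans h2
  have h4 : ‖GaussianInt.toComplex (p.2 - p.1)‖ ≤ (1 + ‖z‖ + |A|) * den p :=
    ((le_max_left _ _).trans (le_max_right _ _)).trans h2
  have hn : p.1 * (p.2 - p.1) * p.2 ≠ 0 := mul_ne_zero (mul_ne_zero hp.1 hp.2.2.1) hp.2.1
  have h5 : radical p ≤ ‖GaussianInt.toComplex (p.1 * (p.2 - p.1) * p.2)‖ :=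
    Pool.Agent.TH402.AK.rad_le hn
  refine h5.trans ?_
  rw [map_mul, map_mul, norm_mul, norm_mul]
  have h6 : den p ^ (3 : ℝ) = den p * den p * den p := by
    rw [show (3 : ℝ) = ((3 : ℕ) : ℝ) by norm_num, Real.rpow_natCast]
    ring
  rw [h6]
  calc ‖GaussianInt.toComplex p.1‖ * ‖GaussianInt.toComplex (p.2 - p.1)‖ * ‖GaussianInt.toComplex p.2‖ ≤
        ((1 + ‖z‖ + |A|) * den p) * ((1 + ‖z‖ + |A|) * den p) * den p := by
        apply mul_le_mul_of_nonneg_right _ (norm_nonneg _)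
        exact mul_le_mul h3 h4 (norm_nonneg _) (by positivity)
    _ = _ := by ring

/-- **Main theorem.** -/
theorem result :
    (∀ᵐ z : ℂ,
      (∀ A B lam : ℝ, lam < 3 → (Bad A B 2 lam z).Finite) ∧
      (∀ A B τ lam : ℝ, 0 ≤ τ → 0 < lam → expo lam < 2 * τ → (Bad A B τ lam z).Finite)) ∧
    (∀ A B τ lam : ℝ, 0 < τ → 0 < lam →
      dimH {z : ℂ | (Bad A B τ lam z).Infinite} ≤ ENNReal.ofReal (expo lam / τ)) ∧
    (∀ (A τ : ℝ) (z : ℂ), 0 ≤ τ → ∀ p ∈ Frac, dist z (frac p) ≤ A * den p ^ (-τ) →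
      radical p ≤ (1 + ‖z‖ + |A|) ^ 2 * den p ^ (3 : ℝ)) ∧
    expo 1 = 12 / 11 := by
  refine ⟨?_, fun A B τ lam hτ hlam => dim_bound A B hτ hlam,
    fun A τ z hτ p hp hd => upper hτ z hp hd, by unfold expo; norm_num⟩
  filter_upwards [all_null] with z hz
  refine ⟨fun A B lam hlam => ?_, hz⟩
  set l : ℝ := max lam 1 with hl
  have h1 : l < 3 := max_lt hlam (by norm_num)
  have h2 : 1 ≤ l := le_max_right _ _
  have h3 : expo l < 2 * 2 := by
    refine lt_of_le_of_lt (min_le_right _ _) ?_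
    linarith
  refine (hz |A| |B| 2 l (by norm_num) (by linarith) h3).subset ?_
  exact bad_mono (le_abs_self A) (abs_nonneg _) (le_abs_self B) (abs_nonneg _) le_rfl (le_max_left _ _) z

end Pool.Agent.Results.MP_dc323a_nt.MetricTheory
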