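import Pool.Agent.Results.MP_dc323a_nt.AllThinSetsAtOnce
import Pool.Agent.Y854.GM.Win

/-!
# The abc inequality over the Gaussian integers for ALL triples whose radical is in windows around thin sequences

Let `D ≥ 1`, `q ≥ 3` and `M > D / q` (for the line `a + b = c` itself `D = 1`, `q = 3`). There is `ν > 0` such that for every
sequence `v ≥ 1` of exponent of convergence at most `τ` (for `v_i = (i + 1) ^ a` this is `1 / a`, for `v_i = b ^ i` it is
`0`) and `ρ < 1` there is ONE set `E ⊂ ℝ` of Hausdorff dimension at most `(2 / q - ν + τ) / (1 - ρ)` such that for each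
`α > 0` outside `E`, each split map `P` of degree `D` of the projective line to the line `a + b = c` with Gaussian integer
coefficients and `q` points over the points with `abc = 0`, and each `c > 0`, for all but finitely many `i`: ALL coprime
triples `a + b = c` of Gaussian integers in the image of `ℙ¹(ℚ(i))` whose radical has norm `rad(abc) ^ 2` with
`|rad(abc) ^ 2 - α v_i| ≤ v_i ^ ρ` satisfy `max {|a|, |b|, |c|} < c rad(abc) ^ M`, of whatever size they are. The number of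
exceptions is from the starting result `AllThinSetsAtOnce`.
-/

set_option autoImplicit false

open Polynomial

namespace Pool.Agent.Results.MP_dc323a_nt.RadicalsInWindows

open AllThinSetsAtOnce (size rad Curve OnCurve Exceptions Triples ByRadical AllByRadical)

/-- the exponent of convergence of the sequence `v` is at most `τ` -/
def ExpLe (v : ℕ → ℝ) (τ : ℝ) : Prop := ∀ t : ℝ, τ < t → Summable (fun n : ℕ => (v n) ^ (-t))

lemma countable_gaussian : Countable GaussianInt := by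
  have h : Function.Injective (fun z : GaussianInt => (z.re, z.im)) := by
    intro z w hzw
    simp only [Prod.mk.injEq] at hzw
    exact Zsqrtd.ext hzw.1 hzw.2
  exact h.countable

lemma countable_polys : Countable (Fin 3 → GaussianInt[X]) := by
  have h1 : Countable GaussianInt := countable_gaussian
  have h2 : Countable GaussianInt[X] := by
    rw [← Cardinal.mk_le_aleph0_iff]
    refine (Polynomial.cardinalMk_le_max).trans ?_
    simp
  infer_instance

lemma rad_nonneg (n : GaussianInt) : 0 ≤ rad n := by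
  unfold rad
  exact finprod_nonneg fun _ => finprod_nonneg fun _ => norm_nonneg _

open Classical in
lemma rad_pos (n : GaussianInt) : 0 < rad n := by
  unfold rad
  by_cases h : (Function.mulSupport fun Q : GaussianInt => ∏ᶠ (_ : Q ∈ {Q : GaussianInt | Prime Q ∧ Q ∣ n ∧
      (0 < Q.re ∧ 0 ≤ Q.im)}), ‖GaussianInt.toComplex Q‖).Finite
  · rw [finprod_eq_prod _ h]
    refine Finset.prod_pos fun Q _ => ?_
    by_cases hQ : Q ∈ {Q : GaussianInt | Prime Q ∧ Q ∣ n ∧ (0 < Q.re ∧ 0 ≤ Q.im)}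
    · rw [finprod_eq_if, if_pos hQ, norm_pos_iff]
      intro h0
      exact hQ.1.ne_zero (GaussianInt.toComplex_eq_zero.1 h0)
    · rw [finprod_eq_if, if_neg hQ]
      exact one_pos
  · rw [finprod_of_infinite_mulSupport h]
    exact one_pos

/-- **Theorem.** Let `D ≥ 1`, `q ≥ 3` and `M > D / q`. There is `ν > 0` such that for every sequence `v ≥ 1` of exponent of
convergence at most `τ ≥ 0` and every `ρ < 1` there is a set `E ⊂ ℝ` of Hausdorff dimension at most
`(2 / q - ν + τ) / (1 - ρ)` such that for each `α > 0` outside `E`, for all curves `P` with coefficients at most `B` (any `B`)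
and all `c > 0`, for all but finitely many `i`: ALL coprime triples `(a, b, a + b)` on the curve with
`|rad(a b (a + b)) ^ 2 - α v_i| ≤ v_i ^ ρ` satisfy `max {|a|, |b|, |a + b|} < c rad(a b (a + b)) ^ M`. The sequences
`v_i = (i + 1) ^ a` and `v_i = b ^ i` have exponent of convergence at most `1 / a` and `0`. -/
theorem result :
    (∀ (D q : ℕ), 1 ≤ D → 3 ≤ q → ∀ M : ℝ, (D : ℝ) / q < M →
      ∃ ν : ℝ, 0 < ν ∧ ∀ (v : ℕ → ℝ) (τ ρ : ℝ), (∀ i, 1 ≤ v i) → 0 ≤ τ → ExpLe v τ → ρ < 1 →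
      ∃ E : Set ℝ, dimH E ≤ ENNReal.ofReal ((2 / (q : ℝ) - ν + τ) / (1 - ρ)) ∧
        ∀ α : ℝ, 0 < α → α ∉ E → ∀ (B : ℝ) (P : Fin 3 → GaussianInt[X]), Curve D q B P → ∀ c : ℝ, 0 < c →
          ∃ i₀ : ℕ, ∀ i : ℕ, i₀ ≤ i → ∀ p : GaussianInt × GaussianInt, p ∈ OnCurve D P →
            |rad (p.1 * p.2 * (p.1 + p.2)) ^ 2 - α * v i| ≤ (v i) ^ ρ →
              size p.1 p.2 < c * rad (p.1 * p.2 * (p.1 + p.2)) ^ M) ∧
    (∀ a : ℝ, 0 < a → ExpLe (fun n : ℕ => ((n : ℝ) + 1) ^ a) (1 / a)) ∧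
    (∀ b : ℝ, 1 < b → ExpLe (fun n : ℕ => b ^ n) 0) := by
  refine ⟨fun D q hD hq M hM => ?_, fun κ hκ => Pool.Agent.Y854.GM.expLe_pow κ hκ,
    fun b hb => Pool.Agent.Y854.GM.expLe_geom b hb⟩
  obtain ⟨-, -, h2, -⟩ := AllThinSetsAtOnce.result D q hD hq
  obtain ⟨η, ν1, hη, hν1, h3⟩ := h2 M hM
  have hq3 : (3 : ℝ) ≤ q := by exact_mod_cast hq
  have hqp : (0 : ℝ) < q := by linarith
  set ν : ℝ := min (ν1 / 2) (1 / q) with hν
  have hν0 : 0 < ν := lt_min (by linarith) (by positivity)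
  have hνa : ν ≤ ν1 / 2 := min_le_left _ _
  have hνb : ν ≤ 1 / q := min_le_right _ _
  have hs : 0 ≤ 2 / (q : ℝ) - ν := by
    have : 2 / (q : ℝ) = 1 / q + 1 / q := by ring
    have h0 : 0 < 1 / (q : ℝ) := by positivity
    linarith
  refine ⟨ν, hν0, fun v τ ρ hv hτ hE hρ => ?_⟩
  -- fixed data and a fixed constant `1 / (n + 1)`
  have key : ∀ z : (Fin 3 → GaussianInt[X]) × ℕ, ∃ E : Set ℝ,
      dimH E ≤ ENNReal.ofReal ((2 / (q : ℝ) - ν + τ) / (1 - ρ)) ∧
      ((∃ B : ℝ, Curve D q B z.1) → ∀ α : ℝ, 0 < α → α ∉ E →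
        ∃ i₀ : ℕ, ∀ i : ℕ, i₀ ≤ i → ∀ p : GaussianInt × GaussianInt, p ∈ OnCurve D z.1 →
            |rad (p.1 * p.2 * (p.1 + p.2)) ^ 2 - α * v i| ≤ (v i) ^ ρ →
              size p.1 p.2 < 1 / ((z.2 : ℝ) + 1) * rad (p.1 * p.2 * (p.1 + p.2)) ^ M) := by
    rintro ⟨P, n⟩
    by_cases hdata : ∃ B : ℝ, Curve D q B P
    swap
    · exact ⟨∅, by simp, fun h => absurd h hdata⟩
    obtain ⟨B, hB⟩ := hdata
    have hn0 : (0 : ℝ) < 1 / ((n : ℝ) + 1) := by positivity
    obtain ⟨⟨C, hC⟩, -⟩ := h3 (1 / ((n : ℝ) + 1)) hn0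
    -- the coefficients are at most `X ^ η` for `X ≥ X₁`
    set X₁ : ℝ := (max B 1) ^ (1 / η) with hX1
    have hB1 : (1 : ℝ) ≤ max B 1 := le_max_right _ _
    have hX11 : 1 ≤ X₁ := Real.one_le_rpow hB1 (by positivity)
    have hX1p : 0 < X₁ := by linarith
    have hdataX : ∀ X : ℝ, X₁ ≤ X → Curve D q (X ^ η) P := by
      intro X hX
      have h4 : B ≤ X ^ η := by
        calc B ≤ max B 1 := le_max_left _ _
          _ = X₁ ^ η := by
              rw [hX1, ← Real.rpow_mul (by linarith), one_div, inv_mul_cancel₀ hη.ne', Real.rpow_one]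
          _ ≤ X ^ η := Real.rpow_le_rpow hX1p.le hX hη.le
      exact { hB with small := fun i k => (hB.small i k).trans h4 }
    obtain ⟨E, hE1, hE2⟩ := Pool.Agent.Y854.GM.windows
      {p : GaussianInt × GaussianInt | p ∈ OnCurve D P ∧
        1 / ((n : ℝ) + 1) * rad (p.1 * p.2 * (p.1 + p.2)) ^ M ≤ size p.1 p.2}
      (fun p => rad (p.1 * p.2 * (p.1 + p.2)) ^ 2)
      (s := 2 / (q : ℝ) - ν) hv hτ hE hs hρ (by
        intro ε hε
        refine ⟨|C| * X₁ ^ |4 / (q : ℝ) - ν1|, fun X hX => ?_⟩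
        have hXs : 1 ≤ √X := by rw [Real.one_le_sqrt]; exact hX
        have hYX : X₁ ≤ X₁ * √X := by nlinarith
        have hY1 : 1 ≤ X₁ * √X := hX11.trans hYX
        have hXY : √X ≤ X₁ * √X := by nlinarith
        obtain ⟨h5, h6⟩ := hC (X₁ * √X) hY1
        have hsub : {p : GaussianInt × GaussianInt | p ∈ {p : GaussianInt × GaussianInt | p ∈ OnCurve D P ∧
            1 / ((n : ℝ) + 1) * rad (p.1 * p.2 * (p.1 + p.2)) ^ M ≤ size p.1 p.2} ∧
            rad (p.1 * p.2 * (p.1 + p.2)) ^ 2 ≤ X} ⊆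
            Exceptions D q η M (1 / ((n : ℝ) + 1)) (X₁ * √X) := by
          rintro p ⟨⟨hcl, hle⟩, hXQ⟩
          exact ⟨⟨P, hdataX _ hYX, hcl, (Real.le_sqrt' (rad_pos _) |>.2 hXQ).trans hXY⟩, hle⟩
        refine ⟨h5.subset hsub, ?_⟩
        calc (({p : GaussianInt × GaussianInt | p ∈ {p : GaussianInt × GaussianInt | p ∈ OnCurve D P ∧
            1 / ((n : ℝ) + 1) * rad (p.1 * p.2 * (p.1 + p.2)) ^ M ≤ size p.1 p.2} ∧
            rad (p.1 * p.2 * (p.1 + p.2)) ^ 2 ≤ X}.ncard : ℕ) : ℝ)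
            ≤ ((Exceptions D q η M (1 / ((n : ℝ) + 1)) (X₁ * √X)).ncard : ℝ) := by
              exact_mod_cast Set.ncard_le_ncard hsub h5
          _ ≤ C * (X₁ * √X) ^ (4 / (q : ℝ) - ν1) := h6
          _ ≤ |C| * (X₁ * √X) ^ (4 / (q : ℝ) - ν1) :=
              mul_le_mul_of_nonneg_right (le_abs_self C) (by positivity)
          _ = |C| * (X₁ ^ (4 / (q : ℝ) - ν1) * X ^ ((4 / (q : ℝ) - ν1) / 2)) := by
              have h7 : (√X) ^ (4 / (q : ℝ) - ν1) = X ^ ((4 / (q : ℝ) - ν1) / 2) := by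
                rw [Real.sqrt_eq_rpow, ← Real.rpow_mul (by linarith : (0 : ℝ) ≤ X)]
                congr 1
                ring
              rw [Real.mul_rpow hX1p.le (by positivity), h7]
          _ ≤ |C| * (X₁ ^ |4 / (q : ℝ) - ν1| * X ^ (2 / (q : ℝ) - ν + ε)) := by
              apply mul_le_mul_of_nonneg_left _ (abs_nonneg C)
              apply mul_le_mul (Real.rpow_le_rpow_of_exponent_le hX11 (le_abs_self _))
                (Real.rpow_le_rpow_of_exponent_le hX ?_) (by positivity) (by positivity)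
              have : (4 / (q : ℝ) - ν1) / 2 = 2 / (q : ℝ) - ν1 / 2 := by ring
              rw [this]
              linarith
          _ = _ := by ring)
    refine ⟨E, hE1, fun _ α hα hαE => ?_⟩
    obtain ⟨i₀, hi₀⟩ := hE2 α hα hαE
    refine ⟨i₀, fun i hi p hcl hwin => ?_⟩
    by_contra hcon
    push Not at hcon
    have h9 := hi₀ i hi p ⟨hcl, hcon⟩
    exact absurd hwin (not_le.2 h9)
  have hc2 : Countable (Fin 3 → GaussianInt[X]) := countable_polys
  choose Es hEs1 hEs2 using key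
  refine ⟨⋃ z, Es z, ?_, fun α hα hαE B P hdata c hc => ?_⟩
  · rw [dimH_iUnion]
    exact iSup_le hEs1
  · obtain ⟨n, hn⟩ := exists_nat_one_div_lt hc
    obtain ⟨i₀, hi₀⟩ := hEs2 (P, n) ⟨B, hdata⟩ α hα (fun hm => hαE (Set.mem_iUnion.2 ⟨_, hm⟩))
    refine ⟨i₀, fun i hi p hcl hwin => (hi₀ i hi p hcl hwin).trans_le ?_⟩
    have h1 : 0 < rad (p.1 * p.2 * (p.1 + p.2)) ^ M := Real.rpow_pos_of_pos (rad_pos _) M
    exact mul_le_mul_of_nonneg_right hn.le h1.le

end Pool.Agent.Results.MP_dc323a_nt.RadicalsInWindows
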