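import Pool.Agent.Results.MP_dc323a_nt.WindowsWithoutExceptions
import Pool.Agent.X16.NW.E

/-!
# The abc inequality over the Gaussian integers for heights near real powers

Let `0 ≤ θ < 1`, `λ > 0` and `s = min (4 λ / 7) (6 / 11) + max (λ - 1) 0`. If `κ_n / log n → ∞` and `s + θ < 1`, then for
almost all `t > 1` and every `B`, for all but finitely many `n`, ALL coprime triples `a + b = c` of nonzero Gaussian
integers whose height `H = max (|a|, |b|, |c|)` satisfies `|H ^ 2 - t ^ κ_n| ≤ t ^ (θ κ_n)` have `rad (abc) > B H ^ λ`;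
and the same with `n ^ t` in place of `t ^ κ_n` for almost all `t > 1 / (1 - s - θ)`. The general theorem is about all
families `f_n (t)` whose logarithmic slopes are bounded below.
-/

set_option autoImplicit false

open MeasureTheory Filter

namespace Pool.Agent.Results.MP_dc323a_nt.RealPowers

open WindowsWithoutExceptions (expo All height IsPrimeSystem)

/-- the exponent of convergence of the sequence `w` is at most `τ` -/
def ExpLe (w : ℕ → ℝ) (τ : ℝ) : Prop := ∀ p : ℝ, τ < p → Summable (fun n : ℕ => (w n) ^ (-p))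

/-- for all large `n` one has `1 ≤ w_n ≤ f_n(t)` on `J`, where `w` has exponent of convergence at most `τ`, and the
logarithmic slopes of `f_n` on `J` are at least some `c > 0` -/
def Expanding (f : ℕ → ℝ → ℝ) (J : Set ℝ) (τ : ℝ) : Prop :=
  ∃ (w : ℕ → ℝ) (c : ℝ) (n₁ : ℕ), 0 < c ∧ ExpLe w τ ∧ ∀ n, n₁ ≤ n → 1 ≤ w n ∧ ∀ t ∈ J, w n ≤ f n t ∧
    ∀ u ∈ J, t ≤ u → c * f n t * (u - t) ≤ f n u - f n t

/-- `I` is covered by countably many sets on which the family `f` is expanding -/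
def LocExpanding (f : ℕ → ℝ → ℝ) (I : Set ℝ) (τ : ℝ) : Prop :=
  ∃ J : ℕ → Set ℝ, I ⊆ ⋃ A, J A ∧ ∀ A, Expanding f (J A) τ

/-- all coprime triples with the square of the height within `Y ^ θ` of `Y` satisfy `rad (abc) > B H ^ λ` -/
def Good (lam θ B Y : ℝ) : Prop :=
  ∀ a b c : GaussianInt, a ≠ 0 → b ≠ 0 → c ≠ 0 → a + b = c → IsCoprime a b →
    |height (a, b, c) ^ 2 - Y| ≤ Y ^ θ → ∀ S : Finset GaussianInt, IsPrimeSystem S (a * b * c) →
      B * height (a, b, c) ^ lam < ∏ Q ∈ S, ‖GaussianInt.toComplex Q‖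

lemma good_of_window {lam θ B Y : ℝ} {k : ℕ} (hk : B ≤ k)
    (h : ∀ t ∈ All (k : ℝ) lam, Y ^ θ < |height t ^ 2 - Y|) : Good lam θ B Y := by
  intro a b c ha hb hc habc hcop hw S hS
  by_contra hcon
  push Not at hcon
  have hpos : 0 ≤ height (a, b, c) := (norm_nonneg _).trans (le_max_left _ _)
  refine absurd (h (a, b, c) (Set.mem_iUnion.2 ⟨height (a, b, c), ha, hb, hc, habc, hcop, le_refl _, S, hS,
    hcon.trans ?_⟩)) (not_lt.2 hw)
  exact mul_le_mul_of_nonneg_right hk (Real.rpow_nonneg hpos _)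

/-- **Theorem.** Let `0 ≤ θ < 1`, `λ > 0`, `s = expo λ = min (4 λ / 7) (6 / 11) + max (λ - 1) 0`. (1) For every family
`f` locally expanding on `I` with exponent of convergence at most `τ ≥ 0` there is a set `E` of Hausdorff dimension at
most `(s + τ) / (1 - θ)` such that for all `t` in `I` outside `E` and every `B`, for all but finitely many `n`, ALL
coprime triples `a + b = c` of nonzero Gaussian integers with `|H ^ 2 - f_n(t)| ≤ f_n(t) ^ θ` have `rad > B H ^ λ`.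
(2) `t ^ κ_n` is such a family on `t > 1` with `τ = 0` if `κ_n / log n → ∞`, and `n ^ t` on `t ≥ a` with `τ = 1 / a`.
(3) If `s + θ < 1`, this holds for almost all `t > 1` along `t ^ κ_n`, and (4) for almost all `t > 1 / (1 - s - θ)`
along `n ^ t`. -/
theorem result :
    (∀ (f : ℕ → ℝ → ℝ) (I : Set ℝ) (τ θ lam : ℝ), 0 ≤ τ → 0 ≤ θ → θ < 1 → 0 < lam → LocExpanding f I τ →
      ∃ E : Set ℝ, dimH E ≤ ENNReal.ofReal ((expo lam + τ) / (1 - θ)) ∧
        ∀ t ∈ I, t ∉ E → ∀ B : ℝ, ∃ n₀ : ℕ, ∀ n : ℕ, n₀ ≤ n → Good lam θ B (f n t)) ∧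
    (∀ κ : ℕ → ℝ, Tendsto (fun n : ℕ => κ n / Real.log n) atTop atTop →
      LocExpanding (fun n t => t ^ κ n) (Set.Ioi 1) 0) ∧
    (∀ a : ℝ, 0 < a → LocExpanding (fun n t => (n : ℝ) ^ t) (Set.Ici a) (1 / a)) ∧
    (∀ (κ : ℕ → ℝ) (θ lam : ℝ), Tendsto (fun n : ℕ => κ n / Real.log n) atTop atTop → 0 ≤ θ → 0 < lam →
      expo lam + θ < 1 → ∀ᵐ t : ℝ, 1 < t → ∀ B : ℝ, ∃ n₀ : ℕ, ∀ n : ℕ, n₀ ≤ n → Good lam θ B (t ^ κ n)) ∧
    (∀ (θ lam : ℝ), 0 ≤ θ → 0 < lam → expo lam + θ < 1 →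
      ∀ᵐ t : ℝ, 1 / (1 - expo lam - θ) < t → ∀ B : ℝ, ∃ n₀ : ℕ, ∀ n : ℕ, n₀ ≤ n →
        Good lam θ B ((n : ℝ) ^ t)) := by
  have hs0 : ∀ lam : ℝ, 0 < lam → 0 ≤ expo lam := fun lam hlam =>
    add_nonneg (le_min (by positivity) (by norm_num)) (le_max_right _ _)
  refine ⟨fun f I τ θ lam hτ hθ0 hθ1 hlam hf => ?_, fun κ hκ => Pool.Agent.X16.NW.loc_rpow κ hκ,
    fun a ha => Pool.Agent.X16.NW.loc_npow a ha, fun κ θ lam hκ hθ0 hlam hs => ?_, fun θ lam hθ0 hlam hs => ?_⟩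
  · have hall : ∀ k : ℕ, ∃ E : Set ℝ, dimH E ≤ ENNReal.ofReal ((expo lam + τ) / (1 - θ)) ∧
        ∀ t ∈ I, t ∉ E → ∃ n₀ : ℕ, ∀ n : ℕ, n₀ ≤ n → ∀ e ∈ All (k : ℝ) lam,
          (f n t) ^ θ < |height e ^ 2 - f n t| := fun k =>
      Pool.Agent.X16.NW.windows_loc (All (k : ℝ) lam) (fun e => height e ^ 2) hτ (hs0 lam hlam) hθ0 hθ1
        (fun ε hε => WindowsWithoutExceptions.count k lam ε hlam hε) I f hf
    choose E hE1 hE2 using hall
    refine ⟨⋃ k, E k, ?_, fun t ht htE B => ?_⟩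
    · rw [dimH_iUnion]
      exact iSup_le hE1
    · obtain ⟨k, hk⟩ := exists_nat_ge B
      obtain ⟨n₀, hn⟩ := hE2 k t ht (fun h => htE (Set.mem_iUnion.2 ⟨k, h⟩))
      exact ⟨n₀, fun n hn1 => good_of_window hk (hn n hn1)⟩
  · have h1 : ∀ k : ℕ, ∀ᵐ t : ℝ, 1 < t → ∃ n₀ : ℕ, ∀ n : ℕ, n₀ ≤ n → ∀ e ∈ All (k : ℝ) lam,
        (t ^ κ n) ^ θ < |height e ^ 2 - t ^ κ n| := fun k =>
      Pool.Agent.X16.NW.ae_rpow (All (k : ℝ) lam) (fun e => height e ^ 2) (hs0 lam hlam)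
        (fun ε hε => WindowsWithoutExceptions.count k lam ε hlam hε) κ hκ θ hθ0 hs
    filter_upwards [ae_all_iff.2 h1] with t ht ht1 B
    obtain ⟨k, hk⟩ := exists_nat_ge B
    obtain ⟨n₀, hn⟩ := ht k ht1
    exact ⟨n₀, fun n hn1 => good_of_window hk (hn n hn1)⟩
  · have h1 : ∀ k : ℕ, ∀ᵐ t : ℝ, 1 / (1 - expo lam - θ) < t → ∃ n₀ : ℕ, ∀ n : ℕ, n₀ ≤ n →
        ∀ e ∈ All (k : ℝ) lam, ((n : ℝ) ^ t) ^ θ < |height e ^ 2 - (n : ℝ) ^ t| := fun k =>
      Pool.Agent.X16.NW.ae_npow (All (k : ℝ) lam) (fun e => height e ^ 2) (hs0 lam hlam)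
        (fun ε hε => WindowsWithoutExceptions.count k lam ε hlam hε) θ hθ0 hs
    filter_upwards [ae_all_iff.2 h1] with t ht ht1 B
    obtain ⟨k, hk⟩ := exists_nat_ge B
    obtain ⟨n₀, hn⟩ := ht k ht1
    exact ⟨n₀, fun n hn1 => good_of_window hk (hn n hn1)⟩

end Pool.Agent.Results.MP_dc323a_nt.RealPowers
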